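import Mathlib
import Pool.Agent.Helper272.Arn.Final

/-!
# Arnold's problem on algebraically integrable bodies, convex case

Every convex body with `C^∞` boundary in an odd-dimensional Euclidean space `ℝ^{2k+1}`, `k ≥ 1`,
which is algebraically integrable is an ellipsoid.
-/

set_option autoImplicit false
open Set Metric MeasureTheory
open scoped ContDiff RealInnerProductSpace

namespace Pool.Agent.Results.MP_56acde_gt.ConvexArnold

/-- Euclidean space `ℝⁿ`. -/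
abbrev E (n : ℕ) : Type := EuclideanSpace ℝ (Fin n)

/-- The boundary of `K` is a `C^∞` hypersurface near `x`: in an open neighbourhood of `x` it is the
zero set of a `C^∞` function whose derivative at `x` is not zero. -/
def SmoothBoundaryAt {n : ℕ} (K : Set (E n)) (x : E n) : Prop :=
  ∃ U : Set (E n), IsOpen U ∧ x ∈ U ∧ ∃ f : E n → ℝ,
    ContDiffOn ℝ ∞ f U ∧ fderiv ℝ f x ≠ 0 ∧ frontier K ∩ U = {y ∈ U | f y = 0}

/-- `K ⊂ ℝⁿ` is a convex body with `C^∞`-smooth boundary: a compact convex set with nonempty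
interior whose topological boundary is a `C^∞` hypersurface. -/
def SmoothConvexBody {n : ℕ} (K : Set (E n)) : Prop :=
  IsCompact K ∧ Convex ℝ K ∧ (interior K).Nonempty ∧ ∀ x ∈ frontier K, SmoothBoundaryAt K x

/-- The cutoff function `V_K^+(ξ,t)`: the volume of `K ∩ {x : ⟨x,ξ⟩ ≤ t}`. -/
noncomputable def cutoffPlus {n : ℕ} (K : Set (E n)) (ξ : E n) (t : ℝ) : ℝ :=
  (volume {x ∈ K | ⟪x, ξ⟫ ≤ t}).toReal

/-- The cutoff function `V_K^-(ξ,t)`: the volume of `K ∩ {x : ⟨x,ξ⟩ ≥ t}`. -/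
noncomputable def cutoffMinus {n : ℕ} (K : Set (E n)) (ξ : E n) (t : ℝ) : ℝ :=
  (volume {x ∈ K | t ≤ ⟪x, ξ⟫}).toReal

/-- The value `Φ(ξ,t,w)` of a real polynomial `Φ` in the `n + 2` variables `ξ_1, …, ξ_n, t, w`. -/
noncomputable def value {n : ℕ} (Φ : MvPolynomial (Fin n ⊕ Fin 2) ℝ) (ξ : E n) (t w : ℝ) : ℝ :=
  MvPolynomial.eval (Sum.elim (fun i => ξ i) ![t, w]) Φ

/-- `K` is algebraically integrable: there is a polynomial `Φ` in `n + 2` variables, not vanishing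
identically on `S^{n-1} × ℝ × ℝ`, with `Φ(ξ,t,V_K^+(ξ,t)) = 0` and `Φ(ξ,t,V_K^-(ξ,t)) = 0` for all
`ξ ∈ S^{n-1}` and all `t` for which the hyperplane `⟨x,ξ⟩ = t` meets the interior of `K`. -/
def AlgebraicallyIntegrable {n : ℕ} (K : Set (E n)) : Prop :=
  ∃ Φ : MvPolynomial (Fin n ⊕ Fin 2) ℝ,
    (∃ ξ : E n, ‖ξ‖ = 1 ∧ ∃ t w : ℝ, value Φ ξ t w ≠ 0) ∧
    ∀ ξ : E n, ‖ξ‖ = 1 → ∀ t : ℝ, (∃ x ∈ interior K, ⟪x, ξ⟫ = t) →
      value Φ ξ t (cutoffPlus K ξ t) = 0 ∧ value Φ ξ t (cutoffMinus K ξ t) = 0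

/-- `K` is an ellipsoid: the image of the closed unit ball under an invertible affine map. -/
def IsEllipsoid {n : ℕ} (K : Set (E n)) : Prop :=
  ∃ f : E n ≃ᵃ[ℝ] E n, K = f '' closedBall 0 1

/-- For every `k ≥ 1`, every convex algebraically integrable body with `C^∞`-smooth boundary in
`ℝ^{2k+1}` is an ellipsoid. -/
theorem result : ∀ k : ℕ, 1 ≤ k → ∀ K : Set (E (2 * k + 1)), SmoothConvexBody K →
    AlgebraicallyIntegrable K → IsEllipsoid K := by
  intro k hk K hK hA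
  obtain ⟨Φ, hΦ, hΦV⟩ := hA
  obtain ⟨c, T, hT, -⟩ := AR.main (n := 2 * k + 1) (k := k) rfl hk K hK.1 hK.2.1 hK.2.2.1 hK.2.2.2 Φ
    hΦ (fun ξ hξ t ht => (hΦV ξ hξ t ht).1)
  refine ⟨T.symm.toLinearEquiv.toAffineEquiv.trans (AffineEquiv.constVAdd ℝ (E (2 * k + 1)) c), ?_⟩
  rw [hT]
  ext x
  simp only [mem_image, mem_closedBall, dist_zero_right]
  constructor
  · intro hx
    refine ⟨T (x - c), hx, ?_⟩
    simp
  · rintro ⟨y, hy, rfl⟩
    simpa using hy

end Pool.Agent.Results.MP_56acde_gt.ConvexArnold
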